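import Mathlib
import Pool.Agent.H29.Jack1

set_option autoImplicit false

namespace Pool.Agent.Results.MP_d77547_co.Expansion

open Finset hiding sort
open Equiv Tuple Nat Pool.Agent.H29.Jack

/-- Schensted row insertion; a tableau is the list of its rows, a row is its set of entries -/
def ins : List (Finset ℕ) → ℕ → List (Finset ℕ)
  | [], x => [{x}]
  | r :: T, x =>
    if h : (r.filter (x < ·)).Nonempty then
      insert x (r.erase ((r.filter (x < ·)).min' h)) :: ins T ((r.filter (x < ·)).min' h)
    else insert x r :: T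

/-- the insertion tableau of a word -/
def P (w : List ℕ) : List (Finset ℕ) := w.foldl ins []

/-- descent set: `j + 1` lies in a strictly lower row than `j` -/
def Des (T : List (Finset ℕ)) : Set ℕ := {j | T.findIdx (j ∈ ·) < T.findIdx (j + 1 ∈ ·)}

open Classical in
/-- fundamental quasisymmetric function in `N` variables -/
noncomputable def F (R : Type) [CommRing R] (N n : ℕ) (S : Set ℕ) : MvPolynomial (Fin N) R :=
  ∑ i : Fin n → Fin N with Monotone i ∧ ∀ a b : Fin n, a.1 + 1 = b.1 → a.1 ∈ S → i a < i b,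
    ∏ j, MvPolynomial.X (i j)

/-- refill the positions of each block with its elements in increasing order -/
noncomputable def refill {n : ℕ} (β : Finpartition (univ : Finset (Fin n))) (π : Perm (Fin n)) :
    List ℕ :=
  List.ofFn fun p => Nat.nth (· ∈ (β.part (π p)).image Fin.val)
    #{q | q < p ∧ π q ∈ β.part (π p)}

theorem des_ins (a : ℕ) (T : List (Finset ℕ)) :
    ∀ x, a ∈ Des (ins T x) ↔ x = a ∨ x ≠ a + 1 ∧ a ∈ Des T := by
  induction T with
  | nil => intro x; simp [ins, Des, List.findIdx_cons]; grind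
  | cons r T ih =>
    intro x
    have d : ∀ (r : Finset ℕ) T, a ∈ Des (r :: T) ↔ a + 1 ∉ r ∧ (a ∈ r ∨ a ∈ Des T) :=
      fun r T => by
      by_cases h : a ∈ r <;> by_cases k : a + 1 ∈ r <;> simp [Des, List.findIdx_cons, h, k]
    rw [ins]
    split_ifs with h
    · have h1 := mem_filter.mp (min'_mem _ h)
      have h2 := fun y hy hy' => min'_le (r.filter (x < ·)) y (mem_filter.mpr ⟨hy, hy'⟩)
      have := h2 a
      have := h2 (a + 1)
      simp only [d, ih, mem_insert, mem_erase]
      grind
    · have := fun k => h ⟨a + 1, k⟩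
      simp only [d, mem_insert]
      grind

theorem des_fold (a : ℕ) {n : ℕ} (w : Fin n → ℕ) : ∀ T, a ∈ Des ((List.ofFn w).foldl ins T) ↔
    (∃ p, w p = a ∧ ∀ q, p < q → w q ≠ a + 1) ∨ a ∈ Des T ∧ ∀ q, w q ≠ a + 1 := by
  induction n with
  | zero => simp
  | succ n ih =>
    intro T
    simp only [List.ofFn_succ, List.foldl_cons, ih, des_ins, Fin.exists_fin_succ,
      Fin.forall_fin_succ, Fin.succ_lt_succ_iff, Fin.succ_pos, Fin.not_lt_zero]
    grind

theorem F_eq (R : Type) [CommRing R] (N : ℕ) {n : ℕ} (w : Perm (Fin n)) :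
    F R N n (Des (P (List.ofFn fun p => w p))) =
      ∑ i : Fin n → Fin N with w⁻¹ = sort (i ∘ w), ∏ p, MvPolynomial.X (i p) := by
  classical
  refine sum_congr (filter_congr fun i _ => ?_) fun _ _ => rfl
  have k : ∀ a b : Fin n, a.1 + 1 = b.1 →
      (a.1 ∈ Des (P (List.ofFn fun p => w p)) ↔ w⁻¹ b < w⁻¹ a) := fun a b e => by
    simp only [P, des_fold, e, Ne, Fin.val_inj, ← Perm.eq_inv_iff_eq, exists_eq_left]
    have : w.symm a ≠ w.symm b := w.symm.injective.ne (by grind)
    simp [Des]
    grind
  simp only [eq_sort_iff, Function.comp_assoc, self_comp_symm,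
    Function.comp_id, Function.comp_apply, Perm.coe_inv, apply_symm_apply]
  refine and_congr_right fun m => ⟨fun h a b ab e => ?_, fun h a b e d => ?_⟩
  · obtain _ | n := n
    · exact a.elim0
    have : StrictMono fun a => toLex (i a, w⁻¹ a) := Fin.strictMono_iff_lt_succ.mpr fun a => by
      refine Prod.Lex.toLex_lt_toLex.mpr ((m a.castSucc_lt_succ.le).lt_or_eq.imp_right fun e =>
        ⟨e, lt_of_le_of_ne (not_lt.mp fun d => ?_) (w⁻¹.injective.ne a.castSucc_lt_succ.ne)⟩)
      exact (h _ _ rfl ((k _ _ rfl).mpr d)).ne e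
    simpa [Prod.Lex.toLex_lt_toLex, e] using this ab
  · have ab : a < b := by grind
    exact (m ab.le).lt_of_ne fun e' => (h a b ab e').not_gt ((k a b e).mp d)

theorem refill_eq {n : ℕ} {Y : Type} [LinearOrder Y] (β : Finpartition (univ : Finset (Fin n)))
    (c : Fin n → Y) (h : ∀ a b, a ∈ β.part b ↔ c a = c b) (π : Perm (Fin n)) :
    refill β π = List.ofFn fun p => (fc c π p : ℕ) := by
  have h1 : ∀ p, c (fc c π p) = c (π p) := fun p => by
    simpa [fc] using (congrFun (comp_perm_comp_sort_eq_comp_sort (f := c) (σ := π))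
      ((sort (c ∘ π))⁻¹ p)).symm
  have h2 : ∀ p q, p < q → c (π p) = c (π q) → fc c π p < fc c π q := fun p q k e =>
    (eq_sort_iff.mp rfl).2 _ _ (rank_lt k e.le) ((h1 p).trans (e.trans (h1 q).symm))
  refine congrArg List.ofFn (funext fun p => ?_)
  refine Eq.trans (congrArg _ ?_) (nth_count (mem_image_of_mem _ ((h _ _).mpr (h1 p))))
  rw [count_eq_card_filter_range]
  refine card_nbij (fun q => fc c π q) (fun q => ?_)
    (Fin.val_injective.comp (fc c π).injective).injOn fun a => ?_
  · simp only [coe_filter, mem_univ, true_and, Set.mem_ofPred_eq, mem_range, h]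
    exact fun k => ⟨h2 _ _ k.1 k.2, mem_image_of_mem _ ((h _ _).mpr ((h1 q).trans k.2))⟩
  · simp only [coe_filter, mem_univ, true_and, Set.mem_ofPred_eq, mem_range, h, mem_image]
    rintro ⟨k, a, e, rfl⟩
    obtain ⟨q, rfl⟩ := (fc c π).surjective a
    rw [h1] at e
    refine ⟨q, ⟨lt_of_le_of_ne (not_lt.mp fun d => ?_) ?_, e⟩, rfl⟩
    · exact (h2 _ _ d e.symm).not_gt k
    · rintro rfl
      exact k.false

open Classical in
theorem card_ker {n A : ℕ} (β : Finpartition (univ : Finset (Fin n))) :
    #{c : Fin n → Fin A | Finpartition.ofSetoid (Setoid.ker c) = β} = A.descFactorial #β.parts := by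
  have ext : ∀ γ : Finpartition (univ : Finset (Fin n)), γ = β ↔
      ∀ a b, a ∈ γ.part b ↔ a ∈ β.part b := fun γ => ⟨fun h => by simp [h], fun h => by
    have : ∀ γ : Finpartition (univ : Finset (Fin n)), γ.parts = univ.image γ.part := fun γ =>
      Finset.ext fun B => ⟨fun k => by simpa using γ.part_surjOn k, by
        simp +contextual [eq_comm]⟩
    exact Finpartition.ext (by rw [this, this, funext fun b => Finset.ext fun a => h a b])⟩
  have sur : ∀ B : β.parts, ∃ a, (⟨β.part a, by simp⟩ : β.parts) = B := fun B =>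
    (β.part_surjOn B.2).imp fun _ h => Subtype.ext h.2
  rw [← Fintype.card_coe β.parts, ← congrArg (descFactorial · _) (Fintype.card_fin A),
    ← Fintype.card_embedding_eq, ← Finset.card_univ]
  refine (card_bij (fun e _ a => e ⟨β.part a, by simp⟩) (fun e _ => ?_) (fun e _ e' _ h => ?_)
    fun c hc => ?_).symm
  · refine (mem_filter_univ _).mpr ((ext _).mpr fun a b => ?_)
    rw [Finpartition.mem_part_ofSetoid_iff_rel]
    simp [Setoid.ker_def, β.mem_part_iff_part_eq_part, eq_comm]
  · ext B
    obtain ⟨a, rfl⟩ := sur B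
    exact congrArg _ (congrFun h a)
  · choose s hs using sur
    simp only [mem_filter_univ, ext, Finpartition.mem_part_ofSetoid_iff_rel, Setoid.ker_def,
      β.mem_part_iff_part_eq_part (mem_univ _) (mem_univ _)] at hc
    refine ⟨⟨fun B => c (s B), fun B B' h => ?_⟩, mem_univ _,
      funext fun a => (hc _ _).mpr (congrArg Subtype.val (hs ⟨β.part a, _⟩)).symm⟩
    rw [← hs B, ← hs B']
    exact Subtype.ext ((hc _ _).mp h).symm

open Polynomial in
theorem result (n N : ℕ) :
    ∑ l : n.Partition, MvPolynomial.C (((n ! : ℚ) / (l.parts.map fun p => (p ! : ℚ)).prod) •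
        (l.parts.map fun p => ∏ a ∈ range p, (X + (a : ℚ[X]))).prod) *
          MvPolynomial.msymm (Fin N) ℚ[X] l =
      ∑ π : Perm (Fin n), ∑ β : Finpartition (univ : Finset (Fin n)),
        MvPolynomial.C (descPochhammer ℚ #β.parts) * F ℚ[X] N n (Des (P (refill β π))) := by
  classical
  refine MvPolynomial.ext _ _ fun d => Polynomial.eq_of_infinite_eval_eq _ _
    ((Set.infinite_range_of_injective (Nat.cast_injective (R := ℚ))).mono ?_)
  rintro _ ⟨A, rfl⟩
  refine (MvPolynomial.coeff_map (evalRingHom (A : ℚ)) _ d).symm.trans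
    ((congrArg _ ?_).trans (MvPolynomial.coeff_map (evalRingHom (A : ℚ)) _ d))
  have hF : ∀ S, MvPolynomial.map (evalRingHom (A : ℚ)) (F ℚ[X] N n S) = F ℚ N n S := by
    simp [F]
  simp only [map_sum, map_mul, MvPolynomial.map_C, hF, coe_evalRingHom,
    descPochhammer_eval_eq_descFactorial, ← card_ker, map_natCast, ← nsmul_eq_mul, ← sum_const]
  have e := fun π => sum_fiberwise' (univ : Finset (Fin n → Fin A))
    (fun c => Finpartition.ofSetoid (Setoid.ker c)) fun β => F ℚ N n (Des (P (refill β π)))
  have e' := fun (c : Fin n → Fin A) => refill_eq (Finpartition.ofSetoid (Setoid.ker c)) c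
    fun a b => Finpartition.mem_part_ofSetoid_iff_rel.trans eq_comm
  simp only [e, e', F_eq]
  rw [sum_comm, core]
  let G : Multiset (Fin N) → MvPolynomial (Fin N) ℚ := fun s =>
    MvPolynomial.C (∏ k, (A.ascFactorial (s.count k) / (s.count k)! : ℚ)) *
      (s.map MvPolynomial.X).prod
  have c : ∀ (u : Fin n → Fin N) k, (univ.val.map u).count k = cnt u k := fun u k => by
    simp only [Multiset.count_map, cnt, eq_comm (a := k)]
    rfl
  have := sum_mono (fun u : Fin n → Fin N => G (univ.val.map u)) fun u σ => by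
    rw [← Multiset.map_map, Multiset.map_univ_val_equiv]
  rw [sum_sym] at this
  refine Eq.trans ?_ (this.symm.trans (sum_congr rfl fun u _ => ?_))
  · rw [← Fintype.sum_fiberwise (fun s : Sym (Fin N) n => Nat.Partition.ofSym s), mul_sum]
    refine sum_congr rfl fun l _ => ?_
    simp only [MvPolynomial.msymm, map_sum, mul_sum]
    refine sum_congr rfl ?_
    rintro ⟨s, rfl⟩ -
    have k : ∀ f : ℕ → ℚ, f 0 = 1 →
        ((Partition.ofSym s).parts.map f).prod = ∏ k, f (s.1.count k) := fun f h => by
      rw [Partition.ofSym, Multiset.map_map, ← Multiset.toFinset_val]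
      exact prod_subset (subset_univ _) fun k _ hk => by
        rw [Function.comp, Multiset.count_eq_zero.mpr (by simpa using hk), h]
    simp only [G, ← mul_assoc, ← map_natCast (MvPolynomial.C (R := ℚ)), ← map_mul, eval_smul,
      eval_multiset_prod, Multiset.map_map, map_multiset_prod, Function.comp_def,
      MvPolynomial.map_X]
    rw [k _ (by simp), k _ (by simp)]
    simp [eval_prod, ascFactorial_eq_prod_range, div_mul_eq_mul_div, mul_div_assoc]
  · simp only [G, c, ← mul_assoc, Fintype.card_fin, ← map_natCast (MvPolynomial.C (R := ℚ)),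
      ← map_mul, Multiset.map_map]
    congr 2
    push_cast
    rw [← prod_mul_distrib]
    exact prod_congr rfl fun k _ => mul_div_cancel₀ _ (by positivity)

end Pool.Agent.Results.MP_d77547_co.Expansion
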